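import Pool.Agent.Y661.HE.Stm
import Pool.Agent.H4R2.HD.BA

/-! LOC, COV: locality and translation covariance of the correctors -/

set_option autoImplicit false

open scoped BigOperators ENNReal
open MeasureTheory Filter

namespace Pool.Agent.Y665.HE.LOC

open Pool.Agent.Y661.HE
open Pool.Agent.H12R2.And
open Pool.Agent.H4R2.HD (Av Gn ind)

theorem self_mem {d : ℕ} (x : V d) (n : ℕ) : x ∈ Q x n := by
  rw [mem_Q]
  intro i
  simp

theorem gn_of_un {d : ℕ} {N : ℕ} {P : Measure (V d → ℝ)} {n : ℕ} {x x' : V d} {W W' : V d → ℝ}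
    (h0 : W x = W' x') (h : ∀ m ≤ n, un N P m W x = un N P m W' x') :
    gn N P n W x = gn N P n W' x' := by
  unfold gn
  rw [h0, h n le_rfl]
  have e : ∑ k ∈ Finset.range (n + 1), en N P (k + 1) * un N P (n - k) W x =
      ∑ k ∈ Finset.range (n + 1), en N P (k + 1) * un N P (n - k) W' x' :=
    Finset.sum_congr rfl fun k _ => by rw [h (n - k) (Nat.sub_le n k)]
  rw [e]

theorem un_loc {d : ℕ} (N : ℕ) (P : Measure (V d → ℝ)) (n : ℕ) :
    ∀ m ≤ n, ∀ (x : V d) (W W' : V d → ℝ), (∀ y ∈ Q x (m * N), W y = W' y) →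
      un N P m W x = un N P m W' x := by
  induction n with
  | zero =>
    intro m hm x W W' _
    have : m = 0 := by omega
    subst this
    rw [un_zero, un_zero]
  | succ n ih =>
    intro m hm x W W' hW
    rcases Nat.lt_or_ge m (n + 1) with h | h
    · exact ih m (by omega) x W W' hW
    · have : m = n + 1 := by omega
      subst this
      rw [un_succ, un_succ]
      unfold Gn
      have e : ∀ j ∈ Finset.range N, (Av^[j] (gn N P n W)) x = (Av^[j] (gn N P n W')) x := by
        intro j hj
        have hj' := Finset.mem_range.1 hj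
        refine Pool.Agent.H4R2.HD.BA.iter_local j _ _ x fun y hy => ?_
        have hle : ∀ m ≤ n, j + m * N ≤ (n + 1) * N := by
          intro m hm
          have h1 : m * N ≤ n * N := Nat.mul_le_mul_right N hm
          rw [Nat.add_mul, Nat.one_mul]
          omega
        refine gn_of_un ?_ fun m hm => ih m hm y W W' fun z hz => hW z ?_
        · refine hW y (Q_mono ?_ hy)
          have := hle 0 (Nat.zero_le n)
          omega
        · exact Q_mono (hle m hm) (Q_trans hy hz)
      rw [Finset.sum_congr rfl e]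

theorem gn_loc {d : ℕ} (N : ℕ) (P : Measure (V d → ℝ)) (n : ℕ) (x : V d) (W W' : V d → ℝ)
    (hW : ∀ y ∈ Q x (n * N), W y = W' y) : gn N P n W x = gn N P n W' x :=
  gn_of_un (hW x (self_mem x _)) fun m hm => un_loc N P n m hm x W W' fun y hy =>
    hW y (Q_mono (Nat.mul_le_mul_right N hm) hy)

theorem loc : S_LOC := by
  intro d N P n x W W'
  refine ⟨fun h => ⟨un_loc N P n n le_rfl x W W' h, gn_loc N P n x W W' h⟩, fun h => ?_⟩
  refine Pool.Agent.H4R2.HD.BA.iter_local N _ _ x fun y hy => gn_loc N P n y W W' fun z hz => ?_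
  refine h z (Q_mono ?_ (Q_trans hy hz))
  rw [Nat.add_mul, Nat.one_mul]
  omega

theorem Av_sh {d : ℕ} (f : V d → ℝ) (a : V d) :
    Av (fun y => f (y + a)) = fun y => Av f (y + a) := by
  funext y
  unfold Av
  have e : ∑ i : Fin d, (f (y + ee i + a) + f (y - ee i + a)) =
      ∑ i : Fin d, (f (y + a + ee i) + f (y + a - ee i)) :=
    Finset.sum_congr rfl fun i _ => by rw [add_right_comm, sub_add_eq_add_sub]
  rw [e]

theorem iter_sh {d : ℕ} (a : V d) (j : ℕ) (f : V d → ℝ) :
    Av^[j] (fun y => f (y + a)) = fun y => (Av^[j] f) (y + a) := by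
  induction j with
  | zero => rfl
  | succ j ih =>
    rw [Function.iterate_succ_apply', ih, Function.iterate_succ_apply']
    exact Av_sh (Av^[j] f) a

theorem un_cov {d : ℕ} (N : ℕ) (P : Measure (V d → ℝ)) (a : V d) (W : V d → ℝ) (n : ℕ) :
    ∀ m ≤ n, ∀ x : V d, un N P m (fun y => W (y + a)) x = un N P m W (x + a) := by
  induction n with
  | zero =>
    intro m hm x
    have : m = 0 := by omega
    subst this
    rw [un_zero, un_zero]
  | succ n ih =>
    intro m hm x
    rcases Nat.lt_or_ge m (n + 1) with h | h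
    · exact ih m (by omega) x
    · have : m = n + 1 := by omega
      subst this
      rw [un_succ, un_succ]
      have e : gn N P n (fun y => W (y + a)) = fun y => gn N P n W (y + a) := by
        funext y
        exact gn_of_un rfl fun m hm => ih m hm y
      rw [e]
      unfold Gn
      have e2 : ∑ j ∈ Finset.range N, (Av^[j] (fun y => gn N P n W (y + a))) x =
          ∑ j ∈ Finset.range N, (Av^[j] (gn N P n W)) (x + a) :=
        Finset.sum_congr rfl fun j _ => by rw [iter_sh]
      rw [e2]

theorem cov : S_COV := by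
  intro d N P n a x W
  exact ⟨un_cov N P a W n n le_rfl x, gn_of_un rfl fun m hm => un_cov N P a W n m hm x⟩

end Pool.Agent.Y665.HE.LOC
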